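import Mathlib

/-!
# MP_748296_nt : interfaces (helper2).  See Blueprint.md in this folder.

Convention: `B` is a commutative ring in which `(p : B)^2 = 0` and every natural number prime to `p`
is a unit (for instance `ZMod (p^2)`).  All fractions are avoided: a fraction `a/b` is a variable `x`
with `x * b = a`.
-/

namespace Pool.Agent.Lib.MP_748296_nt

open Finset

/-- `B` behaves like `Z_(p)/p^2`. -/
structure RingP2 (p : ℕ) (B : Type) [CommRing B] : Prop where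
  sq : (p : B) ^ 2 = 0
  unit : ∀ l : ℕ, ¬ p ∣ l → IsUnit (l : B)

/-- `∏_{i<k} (3 i + 1 + p a)` -/
def P1 (p : ℕ) (B : Type) [CommRing B] (k : ℕ) (a : ℤ) : B :=
  ∏ i ∈ range k, (3 * (i : B) + 1 + (p : B) * (a : B))

/-- `∏_{i<k} (3 i + 2 + p a)` -/
def P2 (p : ℕ) (B : Type) [CommRing B] (k : ℕ) (a : ℤ) : B :=
  ∏ i ∈ range k, (3 * (i : B) + 2 + (p : B) * (a : B))

/-- coefficient `m-1` of `((1-3X)^2 - 4 lam X^3)^(-1/2)` (for `m ≥ 1`). -/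
def bcoef (B : Type) [CommRing B] (lam : B) (m : ℕ) : B :=
  ∑ k ∈ range m, if 3 * k + 1 ≤ m then
    (Nat.choose (2 * k) k : B) * (Nat.choose (m - 1 - k) (2 * k) : B) * 3 ^ (m - 1 - 3 * k) * lam ^ k
  else 0

/-! ## Module A : arithmetic of binomial coefficients in `B` -/

/-- `binom(2p,p) = 2`. -/
def A1Statement : Prop := ∀ (p : ℕ), p.Prime → 3 < p → ∀ (B : Type) [CommRing B], RingP2 p B →
  ((Nat.choose (2 * p) p : ℕ) : B) = 2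

/-- `n = (p-1)/3`: `binom(2p+n,n) = binom(2p+2n,2n) = 1 - 3 (3^(p-1) - 1)`. -/
def A2Statement : Prop := ∀ (p n : ℕ), p.Prime → 3 < p → p = 3 * n + 1 →
  ∀ (B : Type) [CommRing B], RingP2 p B →
  ((Nat.choose (2 * p + n) n : ℕ) : B) = 1 - 3 * (3 ^ (p - 1) - 1) ∧
  ((Nat.choose (2 * p + 2 * n) (2 * n) : ℕ) : B) = 1 - 3 * (3 ^ (p - 1) - 1)

/-- `binom(2p+2n,p+n) = 2 binom(2n,n)`. -/
def A3Statement : Prop := ∀ (p n : ℕ), p.Prime → 3 < p → p = 3 * n + 1 →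
  ∀ (B : Type) [CommRing B], RingP2 p B →
  ((Nat.choose (2 * (p + n)) (p + n) : ℕ) : B) = 2 * ((Nat.choose (2 * n) n : ℕ) : B)

/-- `N = (p-1)/2`: `3 p Σ_{j ≤ N, j ≠ n} binom(N,j) (-1)^j/(3j+1) = binom(N,n) (4^(p-1) - 1)`. -/
def A4Statement : Prop := ∀ (p n N : ℕ), p.Prime → 3 < p → p = 3 * n + 1 → p = 2 * N + 1 →
  ∀ (B : Type) [CommRing B], RingP2 p B → ∀ s : ℕ → B,
  (∀ j ∈ (range (N + 1)).erase n, s j * (3 * (j : B) + 1) = (Nat.choose N j : B) * (-1) ^ j) →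
  3 * (p : B) * ∑ j ∈ (range (N + 1)).erase n, s j = (Nat.choose N n : B) * (4 ^ (p - 1) - 1)

/-- modulo `p`: `binom(2n,n) = binom(N,n) 4^n` (here `n` is even). -/
def A5Statement : Prop := ∀ (p n N : ℕ), p.Prime → 3 < p → p = 3 * n + 1 → p = 2 * N + 1 →
  ((Nat.choose (2 * n) n : ℕ) : ZMod p) = (Nat.choose N n : ZMod p) * 4 ^ n

/-! ## Module H : the hypergeometric sums -/

/-- `p = 1 mod 3`.  `a1 k = (1/3)_k (1/6)_k / k!^2`, `a2 k = (2/3)_k (5/6)_k / k!^2`. -/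
def HStatement : Prop := ∀ (p n : ℕ), p.Prime → 5 < p → p = 3 * n + 1 →
  ∀ (B : Type) [CommRing B], RingP2 p B → ∀ (lam : B) (a1 a2 : ℕ → B),
  (∀ k < p, a1 k * (18 ^ k * (k.factorial : B) ^ 2) = ∏ i ∈ range k, ((3 * (i : B) + 1) * (6 * (i : B) + 1))) →
  (∀ k < p, a2 k * (18 ^ k * (k.factorial : B) ^ 2) = ∏ i ∈ range k, ((3 * (i : B) + 2) * (6 * (i : B) + 5))) →
  ∃ T M : B,
    bcoef B lam p = T + M ∧
    bcoef B lam (2 * p) = 3 * (T + 2 * M) ∧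
    bcoef B lam (4 * p) = 27 * (T + 4 * M) + 2 * lam ^ p * (T + M) ∧
    ∑ k ∈ range p, a1 k * (4 * lam * (1 - lam)) ^ k = T ∧
    (2 * lam - 1) * ∑ k ∈ range p, a2 k * (4 * lam * (1 - lam)) ^ k
      = (2 * lam ^ p - 1) * T - 6 * lam ^ p * M

/-- `p = 2 mod 3`, in a ring of characteristic `p`. -/
def H2Statement : Prop := ∀ (p : ℕ), p.Prime → 5 < p → p % 3 = 2 →
  ∀ (B : Type) [CommRing B], CharP B p → ∀ (lam : B) (a1 a2 : ℕ → B),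
  (∀ k < p, a1 k * (18 ^ k * (k.factorial : B) ^ 2) = ∏ i ∈ range k, ((3 * (i : B) + 1) * (6 * (i : B) + 1))) →
  (∀ k < p, a2 k * (18 ^ k * (k.factorial : B) ^ 2) = ∏ i ∈ range k, ((3 * (i : B) + 2) * (6 * (i : B) + 5))) →
    ∑ k ∈ range p, a1 k * (4 * lam * (1 - lam)) ^ k = (1 - 2 * lam ^ p) * bcoef B lam p ∧
    (1 - 2 * lam) * ∑ k ∈ range p, a2 k * (4 * lam * (1 - lam)) ^ k = bcoef B lam p

/-! ## Module J : Jacobi sums, cubic residue symbol of 5, the two quadratic forms -/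

/-- `n = (p-1)/3`, `u = binom(2n,n) 5^(-n) (1 + (5^(p-1)-1)/3)` modulo `p^2`. -/
def JStatement : Prop := ∀ (p n : ℕ), p.Prime → 5 < p → p = 3 * n + 1 →
  ∀ u : ZMod (p ^ 2), u * (3 * 5 ^ n) = (Nat.choose (2 * n) n : ZMod (p ^ 2)) * (2 + 5 ^ (p - 1)) →
  ((p % 5 = 1 ∨ p % 5 = 4) →
    (∃ x y : ℤ, 4 * (p : ℤ) = x ^ 2 + 75 * y ^ 2 ∧ x % 3 = 2) ∧
    ∀ x y : ℤ, 4 * (p : ℤ) = x ^ 2 + 75 * y ^ 2 → x % 3 = 2 →
      (x : ZMod (p ^ 2)) * u = (x : ZMod (p ^ 2)) ^ 2 - (p : ZMod (p ^ 2))) ∧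
  ((p % 5 = 2 ∨ p % 5 = 3) →
    (∃ x y : ℤ, 4 * (p : ℤ) = 25 * x ^ 2 + 3 * y ^ 2 ∧ x % 3 = 1) ∧
    ∀ x y : ℤ, 4 * (p : ℤ) = 25 * x ^ 2 + 3 * y ^ 2 → x % 3 = 1 →
      ((5 * x : ℤ) : ZMod (p ^ 2)) * u = ((5 * x : ℤ) : ZMod (p ^ 2)) ^ 2 - (p : ZMod (p ^ 2)))

/-! ## Module C : the two square roots -/

open PowerSeries in
/-- `h = ((1-3X)^2 - 4 lam X^3)^(-1/2)` and its coefficients. -/
def C1Statement : Prop := ∀ (A : Type) [CommRing A] [IsAddTorsionFree A] (lam : A),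
  ∃ h : PowerSeries A, h ^ 2 * ((1 - 3 * X) ^ 2 - 4 * PowerSeries.C lam * X ^ 3) = 1 ∧
    constantCoeff h = 1 ∧ ∀ m : ℕ, 1 ≤ m → coeff (m - 1) h = bcoef A lam m

open PowerSeries in
/-- `h0 = (1 - 4 g X^3)^(-1/2)` and its coefficients. -/
def C2Statement : Prop := ∀ (A : Type) [CommRing A] [IsAddTorsionFree A] (g : A),
  ∃ h0 : PowerSeries A, h0 ^ 2 * (1 - 4 * PowerSeries.C g * X ^ 3) = 1 ∧
    constantCoeff h0 = 1 ∧ (∀ k : ℕ, coeff (3 * k) h0 = (Nat.choose (2 * k) k : A) * g ^ k) ∧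
    ∀ m : ℕ, ¬ 3 ∣ m → coeff m h0 = 0

end Pool.Agent.Lib.MP_748296_nt
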